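import Pool.Agent.Lib.H50RF.Defs

/-!
# A1: the topology `topB b`, separation, the basic killing lemma
-/

open Set Filter Topology

namespace Pool.Agent.H50RF

open Pool.Agent.H80Pseudo

theorem isTopologicalAddGroup_top (X : Type*) [AddCommGroup X] : @IsTopologicalAddGroup X ⊤ _ :=
  @IsTopologicalAddGroup.mk X ⊤ _ (@ContinuousAdd.mk X ⊤ _ continuous_top)
    (@ContinuousNeg.mk X ⊤ _ continuous_top)

/-- A nonzero element of the circle has a multiple of norm at least `1/3`. -/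
theorem exists_far_mul {θ : Circ} (hθ : θ ≠ 0) : ∃ n : ℕ, 1/3 ≤ ‖n • θ‖ := by
  by_contra hcon
  push Not at hcon
  have rep : ∀ x : Circ, ∃ r : ℝ, x = (r : Circ) ∧ ‖x‖ = |r| ∧ |r| ≤ 1/2 := by
    intro x
    obtain ⟨r, rfl⟩ := QuotientAddGroup.mk_surjective x
    have e1 : ((r : ℝ) : Circ) = ((r - round r : ℝ) : Circ) := by
      have h1 : ((round r : ℝ) : Circ) = 0 := by
        rw [AddCircle.coe_eq_zero_iff]
        exact ⟨round r, by simp⟩
      rw [AddCircle.coe_sub, h1, sub_zero]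
    have h2 : |r - round r| ≤ 1/2 := abs_sub_round r
    refine ⟨r - round r, e1, ?_, h2⟩
    have e2 : ((QuotientAddGroup.mk r : Circ)) = ((r - round r : ℝ) : Circ) := e1
    rw [e2]
    exact (AddCircle.norm_coe_eq_abs_iff (p := (1:ℝ)) one_ne_zero).2 (by rw [abs_one]; exact h2)
  have dbl : ∀ x : Circ, ‖x‖ < 1/3 → ‖2 • x‖ < 1/3 → ‖2 • x‖ = 2 * ‖x‖ := by
    intro x hx h2x
    obtain ⟨r, rfl, hr, -⟩ := rep x
    rw [hr] at hx ⊢
    have e1 : (2 : ℕ) • (r : Circ) = ((2 * r : ℝ) : Circ) := by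
      rw [← AddCircle.coe_nsmul]
      simp
    rw [e1] at h2x ⊢
    by_cases h4 : |2 * r| ≤ 1/2
    · rw [(AddCircle.norm_coe_eq_abs_iff (p := (1:ℝ)) one_ne_zero).2 (by rw [abs_one]; exact h4),
        abs_mul, abs_two]
    · exfalso
      push Not at h4
      have key : ∀ s : ℝ, 1/2 < s → s < 2/3 → 1/3 ≤ ‖((s : ℝ) : Circ)‖ := by
        intro s hs1 hs2
        have e2 : ((s : ℝ) : Circ) = ((s - 1 : ℝ) : Circ) := by
          rw [AddCircle.coe_sub, AddCircle.coe_period, sub_zero]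
        rw [e2, (AddCircle.norm_coe_eq_abs_iff (p := (1:ℝ)) one_ne_zero).2 (by
          rw [abs_one, abs_le]; constructor <;> linarith), abs_of_neg (by linarith)]
        linarith
      rcases le_or_gt 0 r with h0 | h0
      · rw [abs_of_nonneg h0] at hx
        rw [abs_of_nonneg (by linarith)] at h4
        have := key (2 * r) h4 (by linarith)
        linarith
      · rw [abs_of_neg h0] at hx
        rw [abs_of_neg (by linarith)] at h4
        have := key (-(2 * r)) h4 (by linarith)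
        rw [AddCircle.coe_neg, norm_neg] at this
        linarith
  have hpow : ∀ k : ℕ, ‖(2 ^ k) • θ‖ = 2 ^ k * ‖θ‖ := by
    intro k
    induction k with
    | zero => simp
    | succ k ih =>
      have e1 : (2 ^ (k + 1)) • θ = 2 • ((2 ^ k) • θ) := by
        rw [smul_smul, pow_succ, mul_comm]
      rw [e1, dbl _ (hcon _) (by rw [← e1]; exact hcon _), ih]
      ring
  have hpos : 0 < ‖θ‖ := norm_pos_iff.2 hθ
  obtain ⟨k, hk⟩ := pow_unbounded_of_one_lt (1 / ‖θ‖) (one_lt_two (α := ℝ))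
  have h1 := hcon (2 ^ k)
  rw [hpow, ] at h1
  rw [div_lt_iff₀ hpos] at hk
  linarith

section

variable {X Y : Type*} [AddCommGroup X] [AddCommGroup Y] (b : X →+ Y →+ Circ)

theorem isTopologicalAddGroup_topB : @IsTopologicalAddGroup X (topB b) _ :=
  isTopologicalAddGroup_joinTop ⊤ (isTopologicalAddGroup_top X) _

theorem continuous_topB (y : Y) : @Continuous X Circ (topB b) _ (fun x => b x y) :=
  continuous_joinTop ⊤ (fun y : Y => b.flip y) y

theorem mem_nhds_topB {x : X} {U : Set X} (hU : U ∈ @nhds X (topB b) x) :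
    ∃ F : Finset Y, ∃ ε > 0, ∀ z, (∀ y ∈ F, ‖b (z - x) y‖ < ε) → z ∈ U := by
  obtain ⟨V, hV, F, ε, hε, h⟩ :=
    @mem_nhds_joinTop X _ Y ⊤ (isTopologicalAddGroup_top X) (fun y : Y => b.flip y) x U hU
  have hV' : V = univ := by
    rw [_root_.nhds_top, Filter.mem_top] at hV
    exact hV
  refine ⟨F, ε, hε, fun z hz => h z ?_ hz⟩
  rw [hV']
  trivial

theorem nhds_topB_mem (x : X) (F : Finset Y) {ε : ℝ} (hε : 0 < ε) :
    {z | ∀ y ∈ F, ‖b (z - x) y‖ < ε} ∈ @nhds X (topB b) x := by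
  let _ := topB b
  have h1 : {z | ∀ y ∈ F, ‖b (z - x) y‖ < ε} = ⋂ y ∈ F, {z | ‖b z y - b x y‖ < ε} := by
    ext z
    simp [map_sub, AddMonoidHom.sub_apply]
  rw [h1, Filter.biInter_finset_mem]
  intro y _
  have ho : IsOpen {z | ‖b z y - b x y‖ < ε} :=
    isOpen_lt ((continuous_topB b y).sub continuous_const).norm continuous_const
  apply ho.mem_nhds
  simpa using hε

/-- Separation. -/
theorem CExt.exists_far {b : X →+ Y →+ Circ} (hb : CExt b.flip) {x : X} (hx : x ≠ 0) :
    ∃ y, 1/3 ≤ ‖b x y‖ := by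
  obtain ⟨φ, hφ⟩ := exists_character hx
  obtain ⟨n, hn⟩ := exists_far_mul hφ
  have hc : ((AddSubgroup.zmultiples x : AddSubgroup X) : Set X).Countable := by
    rw [AddSubgroup.coe_zmultiples]
    exact countable_range _
  obtain ⟨y, hy⟩ := hb (AddSubgroup.zmultiples x) hc ((n • φ).comp (AddSubgroup.zmultiples x).subtype)
  refine ⟨y, ?_⟩
  have h1 := hy ⟨x, AddSubgroup.mem_zmultiples x⟩
  have h2 : b x y = n • φ x := h1
  rw [h2]
  exact hn

theorem t2_topB (hb : CExt b.flip) : @T2Space X (topB b) := by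
  apply t2_joinTop ⊤ (isTopologicalAddGroup_top X)
  intro g hg
  right
  obtain ⟨y, hy⟩ := hb.exists_far hg
  refine ⟨y, fun h0 => ?_⟩
  have h1 : b g y = 0 := h0
  rw [h1, norm_zero] at hy
  norm_num at hy

/-- Countable extension, on a countable set. -/
theorem CExt.exists_agree {b : X →+ Y →+ Circ} (hb : CExt b.flip) (φ : X →+ Circ) {s : Set X}
    (hs : s.Countable) : ∃ y, ∀ x ∈ s, b x y = φ x := by
  have h1 := countable_closure hs
  obtain ⟨y, hy⟩ := hb (AddSubgroup.closure s) h1.to_set (φ.comp (AddSubgroup.closure s).subtype)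
  exact ⟨y, fun x hx => hy ⟨x, AddSubgroup.subset_closure hx⟩⟩

/-- **Killing lemma**: sequences as in `exists_killing` have no cluster points. -/
theorem not_cluster (hb : CExt b.flip) (y : ℕ → Y) (α : Circ) (hα : 1/3 ≤ ‖α‖) (z : ℕ → X)
    (hz1 : ∀ n, ∀ m < n, ‖b (z n) (y m)‖ ≤ 1 / (100 * (n + 1)))
    (hz2 : ∀ n, ‖b (z n) (y n) - α‖ ≤ 1/100) (w : X) :
    ¬ ∀ V ∈ @nhds X (topB b) w, ∃ᶠ n in atTop, z n ∈ V := by
  intro hcl
  obtain ⟨φ, hφ1, hφ2⟩ := exists_killing (fun m => b.flip (y m)) z α hα hz1 hz2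
  obtain ⟨v, hv⟩ := hb.exists_agree φ ((countable_range z).union (countable_singleton w))
  have hvz : ∀ n, b (z n) v = φ (z n) := fun n => hv _ (Or.inl (mem_range_self n))
  have hvw : b w v = φ w := hv _ (Or.inr rfl)
  have hzero : ∀ m, b w (y m) = 0 := by
    intro m
    by_contra hne
    have hpos : 0 < ‖b w (y m)‖ := norm_pos_iff.2 hne
    set δ := ‖b w (y m)‖ with hδ
    have hV := nhds_topB_mem b w {y m} (ε := δ / 2) (by linarith)
    obtain ⟨N, hN⟩ := exists_nat_gt (2/δ)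
    obtain ⟨n, hn1, hn2⟩ := ((hcl _ hV).and_eventually (eventually_gt_atTop (max N m))).exists
    have h3 := hz1 n m ((le_max_right _ _).trans_lt hn2)
    have h4 : ‖b (z n - w) (y m)‖ < δ/2 := hn1 (y m) (Finset.mem_singleton_self _)
    have h5 : (N:ℝ) < n := by exact_mod_cast (le_max_left N m).trans_lt hn2
    have h6 : 1 / (100 * ((n:ℝ) + 1)) < δ/2 := by
      rw [div_lt_iff₀ (by positivity)]
      have : 2 < n * δ := by
        have := hN.trans h5
        rwa [div_lt_iff₀ hpos] at this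
      nlinarith
    have h7 : δ ≤ ‖b (z n) (y m)‖ + ‖b (z n - w) (y m)‖ := by
      have e1 : b w (y m) = b (z n) (y m) - b (z n - w) (y m) := by
        rw [map_sub, AddMonoidHom.sub_apply]
        abel
      rw [hδ]
      conv_lhs => rw [e1]
      exact norm_sub_le _ _
    linarith
  have hw0 : b w v = 0 := by
    rw [hvw]
    exact hφ2 w hzero
  have hV := nhds_topB_mem b w {v} (ε := 1/8) (by norm_num)
  obtain ⟨n, hn⟩ := (hcl _ hV).exists
  have h3 : ‖b (z n - w) v‖ < 1/8 := hn v (Finset.mem_singleton_self _)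
  rw [map_sub, AddMonoidHom.sub_apply, hw0, sub_zero, hvz] at h3
  have := hφ1 n
  linarith

end

/-! ## From `GoodOn` to pairings -/

section

variable {G : Type*} [AddCommGroup G] {H : AddSubgroup (G →+ Circ)}

theorem topB_subtype (H : AddSubgroup (G →+ Circ)) : topB H.subtype.flip = topH H := rfl

theorem GoodOn.cext {W : AddSubgroup G} (h : GoodOn W H) : CExt H.subtype.flip := by
  intro A hA χ
  let e := A.equivMapOfInjective H.subtype H.subtype_injective
  have hS : A.map H.subtype ≤ H := by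
    rintro _ ⟨a, -, rfl⟩
    exact a.2
  have hSc : ((A.map H.subtype : AddSubgroup (G →+ Circ)) : Set (G →+ Circ)).Countable := by
    rw [AddSubgroup.coe_map]
    exact hA.image _
  obtain ⟨g, hg⟩ := h.ev (A.map H.subtype) hS hSc (χ.comp e.symm.toAddMonoidHom)
  refine ⟨g, fun a => ?_⟩
  have h1 := hg (e a)
  have h2 : ((e a : A.map H.subtype) : G →+ Circ) = ((a : H) : G →+ Circ) := rfl
  rw [h2] at h1
  have h3 : (χ.comp e.symm.toAddMonoidHom) (e a) = χ a := by
    simp
  rw [h3] at h1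
  exact h1

theorem GoodOn.cext_flip (h : GoodOn ⊤ H) : CExt H.subtype.flip.flip := by
  intro N hN χ
  obtain ⟨k, hk, hχ⟩ := h.ext N le_top hN χ
  exact ⟨⟨k, hk⟩, hχ⟩

end

end Pool.Agent.H50RF
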