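import Pool.Agent.Lib.H50RF.A1

/-!
# A2: compact sets are finite, the killing sequence, not selectively pseudocompact
-/

open Set Filter Topology

namespace Pool.Agent.H50RF

open Pool.Agent.H80Pseudo

variable {X Y : Type*} [AddCommGroup X] [AddCommGroup Y] {b : X →+ Y →+ Circ}

/-- Compact sets are finite. -/
theorem finite_of_isCompact (hb : CExt b.flip) {C : Set X} (hC : @IsCompact X (topB b) C) :
    C.Finite := by
  classical
  by_contra hinf
  let tX := topB b
  obtain ⟨a, -, ha⟩ := Set.Infinite.exists_accPt_of_subset_isCompact hinf hC subset_rfl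
  rw [accPt_iff_nhds] at ha
  -- the sequence
  obtain ⟨p, hp, hr⟩ := exists_seq_of_forall_finset_exists
    (fun q : X × Y × ℕ => q.1 ∈ C ∧ 1/3 ≤ ‖b (q.1 - a) q.2.1‖)
    (fun q q' : X × Y × ℕ => q.2.2 < q'.2.2 ∧
      ‖b (q'.1 - a) q.2.1‖ ≤ 1 / (100 * ((q'.2.2 : ℝ) + 1))) (by
    intro s hs
    set k : ℕ := s.sup (fun q => q.2.2) + 1 with hk
    have hε : (0:ℝ) < 1 / (100 * ((k : ℝ) + 1)) := by positivity
    obtain ⟨x, ⟨hx1, hx2⟩, hxa⟩ := ha _ (nhds_topB_mem b a (s.image fun q => q.2.1) hε)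
    obtain ⟨y, hy⟩ := hb.exists_far (x := x - a) (sub_ne_zero.2 hxa)
    refine ⟨(x, y, k), ⟨hx2, hy⟩, fun q hq => ⟨?_, ?_⟩⟩
    · have := Finset.le_sup (f := fun q : X × Y × ℕ => q.2.2) hq
      simp only [hk]
      exact Nat.lt_succ_of_le this
    · exact (hx1 q.2.1 (Finset.mem_image_of_mem _ hq)).le)
  have hkn : ∀ n, n ≤ (p n).2.2 := by
    have hmono : StrictMono fun n => (p n).2.2 := fun m n hmn => (hr m n hmn).1
    exact fun n => hmono.id_le n
  obtain ⟨α, φ, hφ, hα⟩ := CompactSpace.tendsto_subseq (fun n => b ((p n).1 - a) (p n).2.1)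
  have hα3 : 1/3 ≤ ‖α‖ := ge_of_tendsto' hα.norm fun n => (hp _).2
  obtain ⟨N, hN⟩ := (Metric.tendsto_atTop.1 hα) (1/100) (by norm_num)
  let x : ℕ → X := fun n => (p (φ (n + N))).1
  let y : ℕ → Y := fun n => (p (φ (n + N))).2.1
  obtain ⟨c, -, hc⟩ := hC.exists_mapClusterPt_of_frequently (l := atTop) (f := x)
    (Frequently.of_forall fun n => (hp _).1)
  rw [mapClusterPt_iff_frequently] at hc
  refine not_cluster b hb y α hα3 (fun n => x n - a) ?_ ?_ (c - a) ?_
  · intro n m hmn
    have h1 := (hr (φ (m + N)) (φ (n + N)) (hφ (by omega))).2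
    refine h1.trans ?_
    have h2 : n ≤ (p (φ (n + N))).2.2 := by
      have h3 := hkn (φ (n + N))
      have h4 := hφ.id_le (n + N)
      simp only [id_eq] at h4
      omega
    have h5 : (n : ℝ) ≤ ((p (φ (n + N))).2.2 : ℝ) := by exact_mod_cast h2
    apply one_div_le_one_div_of_le (by positivity)
    linarith
  · intro n
    have h1 := hN (n + N) (by omega)
    rw [dist_eq_norm] at h1
    exact h1.le
  · intro V hV
    have hg : IsTopologicalAddGroup X := isTopologicalAddGroup_topB b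
    have h1 : (fun z => z - a) ⁻¹' V ∈ 𝓝 c := by
      apply (continuous_id.sub continuous_const).continuousAt.preimage_mem_nhds
      simpa using hV
    exact hc _ h1

/-- There is no sequence of nonzero elements converging to zero. -/
theorem not_tendsto_zero (hb : CExt b.flip) (x : ℕ → X) (hx : ∀ n, x n ≠ 0) :
    ¬ ∀ y, Tendsto (fun n => b (x n) y) atTop (𝓝 0) := by
  intro h
  let tX := topB b
  have ht2 : T2Space X := t2_topB b hb
  have hlim : Tendsto x atTop (𝓝 0) := by
    intro U hU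
    obtain ⟨F, ε, hε, hF⟩ := mem_nhds_topB b hU
    have h1 : ∀ᶠ n in atTop, ∀ y ∈ F, ‖b (x n) y‖ < ε := by
      rw [Filter.eventually_all_finset]
      intro y _
      exact (tendsto_zero_iff_norm_tendsto_zero.1 (h y)).eventually (gt_mem_nhds hε)
    rw [mem_map]
    filter_upwards [h1] with n hn
    apply hF
    simpa using hn
  have hcomp : IsCompact (insert 0 (range x)) := hlim.isCompact_insert_range
  have hfin : (range x).Finite := (finite_of_isCompact hb hcomp).subset (subset_insert _ _)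
  obtain ⟨v, hv, hvf⟩ : ∃ v ∈ range x, ∃ᶠ n in atTop, x n = v := by
    by_contra hcon
    push Not at hcon
    have h1 : ∀ᶠ n in atTop, ∀ v ∈ hfin.toFinset, x n ≠ v := by
      rw [Filter.eventually_all_finset]
      intro v hv
      have := hcon v (by simpa using hv)
      simpa using this
    obtain ⟨n, hn⟩ := h1.exists
    exact hn (x n) (by simp) rfl
  obtain ⟨n₀, rfl⟩ := hv
  have h0 : ({x n₀}ᶜ : Set X) ∈ 𝓝 (0 : X) := by
    apply isOpen_compl_singleton.mem_nhds
    simpa using (hx n₀).symm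
  obtain ⟨n, hn1, hn2⟩ := (hvf.and_eventually (hlim h0)).exists
  exact hn2 hn1

/-- The joint kernel of finitely many elements of `Y` is not zero. -/
theorem exists_ker [Infinite X] (h1 : CExt b) (h2 : CExt b.flip) (F : Finset Y) :
    ∃ x, x ≠ 0 ∧ ∀ y ∈ F, b x y = 0 := by
  classical
  by_contra hcon
  push Not at hcon
  have hker : ∀ x, (∀ y ∈ F, b x y = 0) → x = 0 := by
    intro x hx
    by_contra hne
    obtain ⟨y, hy, hxy⟩ := hcon x hne
    exact hxy (hx y hy)
  -- `F` generates `Y`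
  have hgen : ∀ y, y ∈ AddSubgroup.closure (F : Set Y) := by
    intro y
    by_contra hy
    set L := AddSubgroup.closure (F : Set Y) with hL
    have hne : (QuotientAddGroup.mk y : Y ⧸ L) ≠ 0 := by
      rw [Ne, QuotientAddGroup.eq_zero_iff]
      exact hy
    obtain ⟨φ, hφ⟩ := exists_character hne
    let ψ : Y →+ Circ := φ.comp (QuotientAddGroup.mk' L)
    have hψL : ∀ z ∈ L, ψ z = 0 := by
      intro z hz
      have : (QuotientAddGroup.mk' L) z = 0 := (QuotientAddGroup.eq_zero_iff _).2 hz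
      simp only [ψ, AddMonoidHom.comp_apply, this, map_zero]
    have hc : ((F : Set Y) ∪ {y}).Countable := F.countable_toSet.union (countable_singleton y)
    obtain ⟨x, hx⟩ := CExt.exists_agree (b := b.flip) h1 ψ hc
    have hx0 : x = 0 := hker x fun z hz => by
      have := hx z (Or.inl hz)
      rw [hψL z (AddSubgroup.subset_closure hz)] at this
      exact this
    have h3 := hx y (Or.inr rfl)
    rw [hx0, map_zero] at h3
    exact hφ h3.symm
  -- a sequence of small elements
  obtain ⟨s⟩ : Nonempty (ℕ ↪ X) := ⟨Infinite.natEmbedding X⟩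
  obtain ⟨c, φ, hφ, hc⟩ := CompactSpace.tendsto_subseq (fun n => fun y : F => b (s n) (y : Y))
  rw [tendsto_pi_nhds] at hc
  have hx : ∀ k : ℕ, ∃ x : X, x ≠ 0 ∧ ∀ y ∈ F, ‖b x y‖ < 1 / ((k : ℝ) + 1) := by
    intro k
    have hk : (0:ℝ) < 1 / ((k : ℝ) + 1) / 2 := by positivity
    have h3 : ∀ᶠ n in atTop, ∀ y : F, dist (b (s (φ n)) (y : Y)) (c y) < 1 / ((k : ℝ) + 1) / 2 := by
      rw [eventually_all]
      intro y
      exact (Metric.tendsto_nhds.1 (hc y)) _ hk
    obtain ⟨n, hn⟩ := (h3.and (tendsto_add_atTop_nat 1 h3)).exists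
    refine ⟨s (φ (n + 1)) - s (φ n), ?_, ?_⟩
    · rw [sub_ne_zero]
      intro h4
      have h5 := hφ.injective (s.injective h4)
      omega
    · intro y hy
      have h4 := hn.1 ⟨y, hy⟩
      have h5 := hn.2 ⟨y, hy⟩
      rw [map_sub, AddMonoidHom.sub_apply, ← dist_eq_norm]
      calc dist (b (s (φ (n + 1))) y) (b (s (φ n)) y)
          ≤ dist (b (s (φ (n + 1))) y) (c ⟨y, hy⟩) + dist (b (s (φ n)) y) (c ⟨y, hy⟩) :=
            dist_triangle_right _ _ _
        _ < 1 / ((k : ℝ) + 1) / 2 + 1 / ((k : ℝ) + 1) / 2 := add_lt_add h5 h4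
        _ = _ := by ring
  choose x hx0 hxF using hx
  apply not_tendsto_zero h2 x hx0
  intro y
  refine AddSubgroup.closure_induction (p := fun y _ => Tendsto (fun n => b (x n) y) atTop (𝓝 0))
    ?_ ?_ ?_ ?_ (hgen y)
  · intro z hz
    rw [tendsto_zero_iff_norm_tendsto_zero]
    exact squeeze_zero (fun _ => norm_nonneg _) (fun n => (hxF n z hz).le)
      tendsto_one_div_add_atTop_nhds_zero_nat
  · simp
  · intro y z _ _ hy hz
    simp only [map_add]
    simpa using hy.add hz
  · intro y _ hy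
    simp only [map_neg]
    simpa using hy.neg

/-- The killing sequence. -/
theorem exists_seq [Infinite X] (h1 : CExt b) (h2 : CExt b.flip) :
    ∃ (y : ℕ → Y) (α : Circ), 1/3 ≤ ‖α‖ ∧
      ∀ n, ∃ x, (∀ m < n, b x (y m) = 0) ∧ ‖b x (y n) - α‖ < 1/100 := by
  classical
  obtain ⟨p, hp, hr⟩ := exists_seq_of_forall_finset_exists
    (fun q : X × Y => 1/3 ≤ ‖b q.1 q.2‖) (fun q q' : X × Y => b q'.1 q.2 = 0) (by
    intro s hs
    obtain ⟨x, hx0, hx⟩ := exists_ker h1 h2 (s.image Prod.snd)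
    obtain ⟨y, hy⟩ := h2.exists_far hx0
    exact ⟨(x, y), hy, fun q hq => hx q.2 (Finset.mem_image_of_mem _ hq)⟩)
  obtain ⟨α, φ, hφ, hα⟩ := CompactSpace.tendsto_subseq (fun n => b (p n).1 (p n).2)
  have hα3 : 1/3 ≤ ‖α‖ := ge_of_tendsto' hα.norm fun n => hp _
  obtain ⟨N, hN⟩ := (Metric.tendsto_atTop.1 hα) (1/100) (by norm_num)
  refine ⟨fun n => (p (φ (n + N))).2, α, hα3, fun n => ⟨(p (φ (n + N))).1, ?_, ?_⟩⟩
  · intro m hm
    exact hr (φ (m + N)) (φ (n + N)) (hφ (by omega))
  · have h3 := hN (n + N) (by omega)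
    rw [dist_eq_norm] at h3
    exact h3

/-- Not selectively pseudocompact. -/
theorem not_sel [Infinite X] (h1 : CExt b) (h2 : CExt b.flip) :
    ¬ @SelectivelyPseudocompactSp X (topB b) := by
  classical
  let tX := topB b
  intro hSP
  obtain ⟨y, α, hα, hy⟩ := exists_seq h1 h2
  let U : ℕ → Set X := fun n => {x | (∀ m ∈ Finset.range n, ‖b x (y m)‖ < 1 / (100 * ((n:ℝ) + 1))) ∧
    ‖b x (y n) - α‖ < 1/100}
  have hUo : ∀ n, IsOpen (U n) := by
    intro n
    have hU : U n = (⋂ m ∈ Finset.range n, {x | ‖b x (y m)‖ < 1 / (100 * ((n:ℝ) + 1))}) ∩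
        {x | ‖b x (y n) - α‖ < 1/100} := by
      ext g
      simp [U]
    rw [hU]
    apply IsOpen.inter
    · apply isOpen_biInter_finset
      intro m _
      exact isOpen_lt (continuous_topB b _).norm continuous_const
    · exact isOpen_lt ((continuous_topB b _).sub continuous_const).norm continuous_const
  have hUne : ∀ n, (U n).Nonempty := by
    intro n
    obtain ⟨x, hx1, hx2⟩ := hy n
    refine ⟨x, ?_, hx2⟩
    intro m hm
    rw [hx1 m (Finset.mem_range.1 hm), norm_zero]
    positivity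
  obtain ⟨x, hx, w, hw⟩ := hSP U hUo hUne
  refine not_cluster b h2 y α hα x (fun n m hm => ((hx n).1 m (Finset.mem_range.2 hm)).le)
    (fun n => (hx n).2.le) w ?_
  intro V hV
  rw [Nat.frequently_atTop_iff_infinite]
  exact hw V hV

end Pool.Agent.H50RF
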