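import Pool.Agent.Lib.H50RF.A1

/-!
# A3: continuous characters of the compact group `Hom(A, Circ)`
-/

open Set Filter Topology MeasureTheory

namespace Pool.Agent.H50RF

open Pool.Agent.H80Pseudo

/-- The group of all characters of `A`, with the topology of pointwise convergence. -/
def Ch (A : Type*) [AddCommGroup A] : Type _ := A →+ Circ

namespace Ch

variable {A : Type*} [AddCommGroup A]

instance : AddCommGroup (Ch A) := inferInstanceAs (AddCommGroup (A →+ Circ))

/-- The underlying homomorphism. -/
def hom (c : Ch A) : A →+ Circ := c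

/-- A homomorphism as an element of `Ch A`. -/
def ofHom (f : A →+ Circ) : Ch A := f

/-- The value at `a`. -/
def ev (a : A) : Ch A →+ Circ where
  toFun c := hom c a
  map_zero' := rfl
  map_add' _ _ := rfl

theorem ev_apply (a : A) (c : Ch A) : ev a c = hom c a := rfl

theorem hom_ofHom (f : A →+ Circ) : hom (ofHom f) = f := rfl

theorem ext' {c d : Ch A} (h : ∀ a, ev a c = ev a d) : c = d :=
  (AddMonoidHom.ext h : hom c = hom d)

/-- All values. -/
def toFun (A : Type*) [AddCommGroup A] : Ch A →+ (A → Circ) where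
  toFun c a := ev a c
  map_zero' := by
    funext a
    exact map_zero (ev a)
  map_add' c d := by
    funext a
    exact map_add (ev a) c d

theorem toFun_apply (c : Ch A) (a : A) : toFun A c a = ev a c := rfl

instance : TopologicalSpace (Ch A) := TopologicalSpace.induced (toFun A) inferInstance

instance : IsTopologicalAddGroup (Ch A) := topologicalAddGroup_induced (toFun A)

theorem continuous_toFun : Continuous (toFun A) := continuous_induced_dom

theorem continuous_ev (a : A) : Continuous (ev a : Ch A → Circ) := by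
  have h := (continuous_apply (A := fun _ : A => Circ) a).comp (continuous_toFun (A := A))
  exact h

theorem toFun_injective : Function.Injective (toFun A) := by
  intro c d h
  exact ext' fun a => congrFun h a

theorem isEmbedding_toFun : IsEmbedding (toFun A) := ⟨⟨rfl⟩, toFun_injective⟩

instance : T2Space (Ch A) := isEmbedding_toFun.t2Space

theorem isClosed_range : IsClosed (range (toFun A)) := by
  have h1 : range (toFun A) = {f | f 0 = 0} ∩ ⋂ a, ⋂ a', {f : A → Circ | f (a + a') = f a + f a'} := by
    ext f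
    constructor
    · rintro ⟨c, rfl⟩
      refine ⟨map_zero (hom c), ?_⟩
      simp only [mem_iInter]
      intro a a'
      exact map_add (hom c) a a'
    · rintro ⟨h0, h1⟩
      simp only [mem_iInter] at h1
      exact ⟨ofHom ⟨⟨f, h0⟩, h1⟩, rfl⟩
  rw [h1]
  apply IsClosed.inter
  · exact isClosed_eq (continuous_apply 0) continuous_const
  · apply isClosed_iInter
    intro a
    apply isClosed_iInter
    intro a'
    exact isClosed_eq (continuous_apply (a + a')) ((continuous_apply a).add (continuous_apply a'))

instance : CompactSpace (Ch A) :=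
  (IsClosedEmbedding.mk isEmbedding_toFun isClosed_range).compactSpace

/-- The continuous function `c ↦ exp (2 π i ψ c)`. -/
noncomputable def E {C : Type*} [AddCommGroup C] [TopologicalSpace C] (ψ : C →+ Circ)
    (hψ : Continuous ψ) : C(C, ℂ) :=
  ⟨fun c => (AddCircle.toCircle (ψ c) : ℂ), by
    exact continuous_subtype_val.comp (AddCircle.continuous_toCircle.comp hψ)⟩

theorem E_apply {C : Type*} [AddCommGroup C] [TopologicalSpace C] (ψ : C →+ Circ)
    (hψ : Continuous ψ) (c : C) : E ψ hψ c = (AddCircle.toCircle (ψ c) : ℂ) := rfl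

/-- A nontrivial character of a compact group has integral zero. -/
theorem integral_E {C : Type*} [AddCommGroup C] [TopologicalSpace C] [IsTopologicalAddGroup C]
    [CompactSpace C] [MeasurableSpace C] [BorelSpace C] (μ : Measure C) [μ.IsAddLeftInvariant]
    (ψ : C →+ Circ) (hψ : Continuous ψ) (h : ∃ c, ψ c ≠ 0) : ∫ c, E ψ hψ c ∂μ = 0 := by
  obtain ⟨c₀, hc₀⟩ := h
  have h1 : ∫ c, E ψ hψ (c₀ + c) ∂μ = ∫ c, E ψ hψ c ∂μ := integral_add_left_eq_self _ c₀
  have h2 : ∀ c, E ψ hψ (c₀ + c) = (AddCircle.toCircle (ψ c₀) : ℂ) * E ψ hψ c := by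
    intro c
    rw [E_apply, E_apply, map_add, AddCircle.toCircle_add]
    simp
  simp only [h2] at h1
  rw [integral_const_mul] at h1
  have h3 : (AddCircle.toCircle (ψ c₀) : ℂ) ≠ 1 := by
    intro h4
    apply hc₀
    have h5 : AddCircle.toCircle (ψ c₀) = 1 := by
      apply Subtype.ext
      simpa using h4
    rw [← AddCircle.toCircle_zero (T := (1:ℝ))] at h5
    exact AddCircle.injective_toCircle one_ne_zero h5
  have h4 : ((AddCircle.toCircle (ψ c₀) : ℂ) - 1) * ∫ c, E ψ hψ c ∂μ = 0 := by
    rw [sub_mul, h1, one_mul, sub_self]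
  rcases mul_eq_zero.1 h4 with h5 | h5
  · exact absurd (sub_eq_zero.1 h5) h3
  · exact h5

/-- The linear span of the evaluations is dense (Stone-Weierstrass). -/
theorem exists_approx (f : C(Ch A, ℂ)) :
    ∃ p ∈ Submodule.span ℂ (range fun a : A => E (ev a) (continuous_ev a)), ‖p - f‖ < 1/2 := by
  let S : StarSubalgebra ℂ C(Ch A, ℂ) :=
    { toSubalgebra := Algebra.adjoin ℂ (range fun a : A => E (ev a) (continuous_ev a))
      star_mem' := by
        change Algebra.adjoin ℂ (range fun a : A => E (ev a) (continuous_ev a)) ≤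
          star (Algebra.adjoin ℂ (range fun a : A => E (ev a) (continuous_ev a)))
        refine Algebra.adjoin_le ?_
        rintro - ⟨a, rfl⟩
        refine Algebra.subset_adjoin ⟨-a, ?_⟩
        ext c
        have h1 : ev (-a) c = - ev a c := map_neg (hom c) a
        simp only [E_apply, h1, AddCircle.toCircle_neg, ContinuousMap.star_apply]
        exact Circle.coe_inv_eq_conj _ }
  have hsep : S.SeparatesPoints := by
    intro c d hcd
    have h1 : ∃ a, ev a c ≠ ev a d := by
      by_contra hcon
      push Not at hcon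
      exact hcd (ext' hcon)
    obtain ⟨a, ha⟩ := h1
    refine ⟨_, ⟨E (ev a) (continuous_ev a), Algebra.subset_adjoin ⟨a, rfl⟩, rfl⟩, ?_⟩
    intro h2
    apply ha
    apply AddCircle.injective_toCircle (T := (1:ℝ)) one_ne_zero
    exact Subtype.ext h2
  have hdense := ContinuousMap.starSubalgebra_topologicalClosure_eq_top_of_separatesPoints S hsep
  have hf : f ∈ closure (S : Set C(Ch A, ℂ)) := by
    have h1 : f ∈ S.topologicalClosure := by
      rw [hdense]
      trivial
    exact h1
  obtain ⟨p, hp, hpf⟩ := Metric.mem_closure_iff.1 hf (1/2) (by norm_num)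
  refine ⟨p, ?_, ?_⟩
  · have h1 : p ∈ Subalgebra.toSubmodule (Algebra.adjoin ℂ
        (range fun a : A => E (ev a) (continuous_ev a))) := hp
    rw [Algebra.adjoin_eq_span_of_subset] at h1
    · exact h1
    · refine Subset.trans ?_ Submodule.subset_span
      intro x hx
      refine Submonoid.closure_induction (fun _ => id) ⟨0, ?_⟩ ?_ hx
      · ext c
        have h2 : ev (0 : A) c = 0 := map_zero (hom c)
        simp [E_apply, h2]
      · rintro - - - - ⟨m, rfl⟩ ⟨n, rfl⟩
        refine ⟨m + n, ?_⟩
        ext c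
        have h2 : ev (m + n) c = ev m c + ev n c := map_add (hom c) m n
        simp only [E_apply, h2, AddCircle.toCircle_add, ContinuousMap.mul_apply]
        simp
  · rw [← dist_eq_norm, dist_comm]
    exact hpf

/-- **Duality**: continuous characters of `Ch A` are evaluations. -/
theorem exists_eq_ev (χ : Ch A →+ Circ) (hχ : Continuous χ) : ∃ a : A, ∀ c, χ c = ev a c := by
  by_contra hcon
  push Not at hcon
  let _ : MeasurableSpace (Ch A) := borel (Ch A)
  have _ : BorelSpace (Ch A) := ⟨rfl⟩
  let μ : Measure (Ch A) := Measure.addHaar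
  obtain ⟨p, hp, hpχ⟩ := exists_approx (E χ hχ)
  have hint : ∀ f : C(Ch A, ℂ), Integrable (fun c => f c) μ := fun f =>
    f.continuous.integrable_of_hasCompactSupport
      (HasCompactSupport.of_compactSpace _)
  -- orthogonality
  have horth : ∀ q ∈ Submodule.span ℂ (range fun a : A => E (ev a) (continuous_ev a)),
      ∫ c, (q * star (E χ hχ)) c ∂μ = 0 := by
    intro q hq
    induction hq using Submodule.span_induction with
    | mem q hq =>
      obtain ⟨a, rfl⟩ := hq
      have hne : ∃ c, (ev a - χ) c ≠ 0 := by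
        obtain ⟨c, hc⟩ := hcon a
        refine ⟨c, ?_⟩
        rw [AddMonoidHom.sub_apply, sub_ne_zero]
        exact hc.symm
      have hcont : Continuous (ev a - χ : Ch A →+ Circ) := (continuous_ev a).sub hχ
      rw [← integral_E μ (ev a - χ) hcont hne]
      congr 1
      ext c
      have h1 : (ev a - χ) c = ev a c + -χ c := by
        rw [AddMonoidHom.sub_apply, sub_eq_add_neg]
      simp only [E_apply, h1, AddCircle.toCircle_add, AddCircle.toCircle_neg,
        ContinuousMap.mul_apply, ContinuousMap.star_apply, Circle.coe_mul]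
      rw [Circle.coe_inv_eq_conj]
      rfl
    | zero => simp
    | add q r _ _ hq hr =>
      have h1 : ∀ c, ((q + r) * star (E χ hχ)) c = (q * star (E χ hχ)) c + (r * star (E χ hχ)) c := by
        intro c
        rw [add_mul]
        rfl
      simp only [h1]
      rw [integral_add (hint _) (hint _), hq, hr, add_zero]
    | smul z q _ hq =>
      have h1 : ∀ c, ((z • q) * star (E χ hχ)) c = z * (q * star (E χ hχ)) c := by
        intro c
        rw [smul_mul_assoc]
        rfl
      simp only [h1]
      rw [integral_const_mul, hq, mul_zero]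
  have h0 := horth p hp
  -- the contradiction
  have h1 : ∀ c, (E χ hχ * star (E χ hχ)) c = 1 := by
    intro c
    simp only [ContinuousMap.mul_apply, ContinuousMap.star_apply, E_apply]
    have := Complex.mul_conj (AddCircle.toCircle (χ c) : ℂ)
    rw [Complex.star_def, this]
    simp
  have h2 : ∫ c, ((E χ hχ - p) * star (E χ hχ)) c ∂μ = ((μ.real univ : ℝ) : ℂ) := by
    have h3 : ∀ c, ((E χ hχ - p) * star (E χ hχ)) c =
        (E χ hχ * star (E χ hχ)) c - (p * star (E χ hχ)) c := by
      intro c
      rw [sub_mul]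
      rfl
    simp only [h3]
    rw [integral_sub (hint _) (hint _), h0, sub_zero]
    simp only [h1]
    rw [integral_const]
    simp
  have hμ : 0 < μ.real univ := by
    rw [Measure.real, ENNReal.toReal_pos_iff]
    exact ⟨IsOpen.measure_pos μ isOpen_univ univ_nonempty, measure_lt_top μ univ⟩
  have h3 : ‖∫ c, ((E χ hχ - p) * star (E χ hχ)) c ∂μ‖ ≤ 1/2 * μ.real univ := by
    apply norm_integral_le_of_norm_le_const
    refine Eventually.of_forall fun c => ?_
    rw [ContinuousMap.mul_apply, norm_mul]
    have h4 : ‖(E χ hχ - p) c‖ ≤ 1/2 := by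
      have h5 := ContinuousMap.norm_coe_le_norm (E χ hχ - p) c
      rw [norm_sub_rev] at hpχ
      exact h5.trans hpχ.le
    have h5 : ‖(star (E χ hχ)) c‖ = 1 := by
      rw [ContinuousMap.star_apply, norm_star, E_apply]
      exact Circle.norm_coe _
    rw [h5, mul_one]
    exact h4
  rw [h2, Complex.norm_real, Real.norm_eq_abs, abs_of_pos hμ] at h3
  linarith

end Ch

/-- **Dual lemma**: the continuous characters for `topB b` are the `b · y`. -/
theorem exists_eq_of_continuous {X Y : Type*} [AddCommGroup X] [AddCommGroup Y]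
    {b : X →+ Y →+ Circ} (hb : CExt b) (χ : X →+ Circ) (hχ : @Continuous X Circ (topB b) _ χ) :
    ∃ y, ∀ x, b x y = χ x := by
  have h1 : ∀ n : ℕ, ∃ F : Finset Y, ∃ ε > 0, ∀ x, (∀ y ∈ F, ‖b x y‖ < ε) →
      ‖χ x‖ < 1 / ((n:ℝ) + 1) := by
    intro n
    have hU : {x | ‖χ x‖ < 1 / ((n:ℝ) + 1)} ∈ @nhds X (topB b) 0 := by
      let tX := topB b
      have ho : IsOpen {x | ‖χ x‖ < 1 / ((n:ℝ) + 1)} := isOpen_lt hχ.norm continuous_const
      apply ho.mem_nhds
      simp only [Set.mem_ofPred_eq, map_zero, norm_zero]
      positivity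
    obtain ⟨F, ε, hε, hF⟩ := mem_nhds_topB b hU
    exact ⟨F, ε, hε, fun x hx => hF x (by simpa using hx)⟩
  choose F ε hε hF using h1
  have hc : (⋃ n, (F n : Set Y)).Countable := countable_iUnion fun n => (F n).countable_toSet
  let A := AddSubgroup.closure (⋃ n, (F n : Set Y))
  have hFA : ∀ n, ∀ y ∈ F n, y ∈ A := fun n y hy =>
    AddSubgroup.subset_closure (mem_iUnion.2 ⟨n, hy⟩)
  let q : X →+ Ch A :=
    { toFun := fun x => Ch.ofHom ((b x).comp A.subtype)
      map_zero' := by
        rw [map_zero]
        rfl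
      map_add' := fun x x' => by
        rw [map_add]
        rfl }
  have hq : ∀ x (a : A), Ch.ev a (q x) = b x (a : Y) := fun x a => rfl
  have hsurj : Function.Surjective q := by
    intro c
    obtain ⟨x, hx⟩ := hb A (countable_closure hc).to_set (Ch.hom c)
    exact ⟨x, Ch.ext' hx⟩
  have hker : q.ker ≤ χ.ker := by
    intro x hx
    rw [AddMonoidHom.mem_ker] at hx ⊢
    by_contra hne
    have hpos : 0 < ‖χ x‖ := norm_pos_iff.2 hne
    obtain ⟨n, hn⟩ := exists_nat_one_div_lt hpos
    have h3 := hF n x fun y hy => by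
      have h4 := hq x ⟨y, hFA n y hy⟩
      rw [hx, map_zero] at h4
      rw [← h4, norm_zero]
      exact hε n
    linarith
  let χ' : Ch A →+ Circ := (q.liftOfSurjective hsurj) ⟨χ, hker⟩
  have hχ' : ∀ x, χ' (q x) = χ x := fun x => AddMonoidHom.liftOfRightInverse_comp_apply _ _ _ _ _
  have hcont : Continuous χ' := by
    apply continuous_of_continuousAt_zero
    rw [ContinuousAt, map_zero, Metric.tendsto_nhds]
    intro δ hδ
    obtain ⟨n, hn⟩ := exists_nat_one_div_lt hδ
    have hev : ∀ᶠ c : Ch A in 𝓝 0, ∀ y : F n, ‖Ch.ev ⟨(y : Y), hFA n y y.2⟩ c‖ < ε n := by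
      rw [eventually_all]
      intro y
      have h3 := (Ch.continuous_ev (⟨(y : Y), hFA n y y.2⟩ : A)).norm.tendsto (0 : Ch A)
      rw [map_zero, norm_zero] at h3
      exact h3.eventually (gt_mem_nhds (hε n))
    filter_upwards [hev] with c hc'
    obtain ⟨x, rfl⟩ := hsurj c
    rw [hχ', dist_zero_right]
    refine (hF n x fun y hy => ?_).trans hn
    exact hc' ⟨y, hy⟩
  obtain ⟨a, ha⟩ := Ch.exists_eq_ev χ' hcont
  refine ⟨a, fun x => ?_⟩
  rw [← hχ' x, ha]
  rfl

end Pool.Agent.H50RF
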