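import Pool.Agent.Lib.H50RF.A2
import Pool.Agent.Lib.H50RF.A3

/-!
# A4: reflexivity
-/

open Set Filter Topology

namespace Pool.Agent.H50RF

open Pool.Agent.H80Pseudo

section

variable {X Y : Type*} [AddCommGroup X] [AddCommGroup Y]

/-- `X` with the topology `topB b`. -/
def TB (_b : X →+ Y →+ Circ) : Type _ := X

variable (b : X →+ Y →+ Circ)

instance : AddCommGroup (TB b) := inferInstanceAs (AddCommGroup X)

instance : TopologicalSpace (TB b) := topB b

instance : IsTopologicalAddGroup (TB b) := isTopologicalAddGroup_topB b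

/-- The pairing on `TB b`. -/
def pr : TB b →+ TB b.flip →+ Circ := b

theorem continuous_pr_left (y : TB b.flip) : Continuous fun x : TB b => pr b x y :=
  continuous_topB b y

theorem continuous_pr_right (x : TB b) : Continuous fun y : TB b.flip => pr b x y :=
  continuous_topB b.flip x

theorem continuous_rng {Z : Type*} [TopologicalSpace Z] {f : Z → TB b.flip}
    (h : ∀ x : TB b, Continuous fun z => pr b x (f z)) : Continuous f := by
  change @Continuous Z Y _ (⊤ ⊓ ⨅ x : X, TopologicalSpace.induced (b.flip.flip x) inferInstance) f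
  apply continuous_inf_rng.2
  refine ⟨continuous_top, ?_⟩
  apply continuous_iInf_rng.2
  intro x
  apply continuous_induced_rng.2
  exact h x

variable {b}

/-- The map from `Y` to the dual of `X`. -/
def dm (hb : CExt b.flip) : TB b.flip →ₜ+ (TB b →ₜ+ Circ) where
  toFun y := ⟨(pr b).flip y, continuous_pr_left b y⟩
  map_zero' := by
    ext x
    exact map_zero (pr b x)
  map_add' y y' := by
    ext x
    exact map_add (pr b x) y y'
  continuous_toFun := by
    rw [(ContinuousAddMonoidHom.isInducing_toContinuousMap (TB b) Circ).continuous_iff]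
    apply ContinuousMap.continuous_compactOpen.2
    intro K hK U hU
    have hfin : (K : Set X).Finite := finite_of_isCompact hb hK
    have h1 : {y : TB b.flip | MapsTo (fun x : TB b => pr b x y) K U} =
        ⋂ x ∈ K, {y | pr b x y ∈ U} := by
      ext y
      simp [MapsTo]
    change IsOpen {y : TB b.flip | MapsTo (fun x : TB b => pr b x y) K U}
    rw [h1]
    exact hfin.isOpen_biInter fun x _ => hU.preimage (continuous_pr_right b x)

theorem dm_apply (hb : CExt b.flip) (y : TB b.flip) (x : TB b) : dm hb y x = pr b x y := rfl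

theorem dm_injective (hb1 : CExt b) (hb2 : CExt b.flip) : Function.Injective (dm hb2) := by
  intro y y' h
  by_contra hne
  obtain ⟨x, hx⟩ := CExt.exists_far (b := b.flip) hb1 (x := y - y') (sub_ne_zero.2 hne)
  have h1 : pr b x y = pr b x y' := DFunLike.congr_fun h x
  have h3 : pr b x (y - y') = 0 := by
    rw [map_sub, h1, sub_self]
  have h2 : b.flip (y - y') x = 0 := h3
  rw [h2, norm_zero] at hx
  norm_num at hx

theorem dm_surjective (hb1 : CExt b) (hb2 : CExt b.flip) : Function.Surjective (dm hb2) := by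
  intro φ
  obtain ⟨y, hy⟩ := exists_eq_of_continuous hb1 (φ : TB b →+ Circ) φ.continuous_toFun
  refine ⟨y, ?_⟩
  ext x
  exact hy x

/-- The inverse map. -/
noncomputable def dmInv (hb1 : CExt b) (hb2 : CExt b.flip) : (TB b →ₜ+ Circ) →ₜ+ TB b.flip where
  toFun φ := (Function.surjInv (dm_surjective hb1 hb2) φ)
  map_zero' := by
    apply dm_injective hb1 hb2
    rw [Function.surjInv_eq (dm_surjective hb1 hb2), map_zero]
  map_add' φ ψ := by
    apply dm_injective hb1 hb2
    rw [Function.surjInv_eq (dm_surjective hb1 hb2), map_add,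
      Function.surjInv_eq (dm_surjective hb1 hb2), Function.surjInv_eq (dm_surjective hb1 hb2)]
  continuous_toFun := by
    apply continuous_rng b
    intro x
    have h1 : (fun φ : TB b →ₜ+ Circ => pr b x (Function.surjInv (dm_surjective hb1 hb2) φ)) =
        fun φ => φ x := by
      funext φ
      rw [← dm_apply hb2, Function.surjInv_eq (dm_surjective hb1 hb2)]
    rw [h1]
    exact (evalC (TB b) x).continuous_toFun

theorem dm_dmInv (hb1 : CExt b) (hb2 : CExt b.flip) (φ : TB b →ₜ+ Circ) :
    dm hb2 (dmInv hb1 hb2 φ) = φ := Function.surjInv_eq _ _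

theorem dmInv_dm (hb1 : CExt b) (hb2 : CExt b.flip) (y : TB b.flip) :
    dmInv hb1 hb2 (dm hb2 y) = y := by
  apply dm_injective hb1 hb2
  rw [dm_dmInv]

/-- The dual map is a homeomorphism. -/
noncomputable def dmHomeo (hb1 : CExt b) (hb2 : CExt b.flip) : TB b.flip ≃ₜ (TB b →ₜ+ Circ) where
  toFun := dm hb2
  invFun := dmInv hb1 hb2
  left_inv := dmInv_dm hb1 hb2
  right_inv := dm_dmInv hb1 hb2
  continuous_toFun := (dm hb2).continuous_toFun
  continuous_invFun := (dmInv hb1 hb2).continuous_toFun

/-- Precomposition with the dual map. -/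
noncomputable def preHomeo (hb1 : CExt b) (hb2 : CExt b.flip) :
    (TB b.flip →ₜ+ Circ) ≃ₜ ((TB b →ₜ+ Circ) →ₜ+ Circ) where
  toFun := ContinuousAddMonoidHom.compLeft Circ (dmInv hb1 hb2)
  invFun := ContinuousAddMonoidHom.compLeft Circ (dm hb2)
  left_inv f := by
    ext y
    change f (dmInv hb1 hb2 (dm hb2 y)) = f y
    rw [dmInv_dm]
  right_inv f := by
    ext φ
    change f (dm hb2 (dmInv hb1 hb2 φ)) = f φ
    rw [dm_dmInv]
  continuous_toFun := (ContinuousAddMonoidHom.compLeft Circ (dmInv hb1 hb2)).continuous_toFun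
  continuous_invFun := (ContinuousAddMonoidHom.compLeft Circ (dm hb2)).continuous_toFun

/-- **Reflexivity.** -/
theorem isReflexive_TB (hb1 : CExt b) (hb2 : CExt b.flip) : IsReflexive (TB b) := by
  have h2 : CExt b.flip.flip := hb1
  let D : TB b ≃ₜ (TB b.flip →ₜ+ Circ) := dmHomeo (b := b.flip) hb2 h2
  have h1 : evalC (TB b) = (preHomeo hb1 hb2) ∘ D := by
    funext x
    ext φ
    change φ x = pr b x (dmInv hb1 hb2 φ)
    conv_lhs => rw [← dm_dmInv hb1 hb2 φ]
    rfl
  rw [IsReflexive, h1]
  exact (preHomeo hb1 hb2).isHomeomorph.comp D.isHomeomorph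

end

/-- **Part A**: a good group of characters gives a reflexive pseudocompact topology which is not
selectively pseudocompact. -/
theorem partA {G : Type*} [AddCommGroup G] [Infinite G] {H : AddSubgroup (G →+ Circ)}
    (h : GoodOn ⊤ H) :
    ∃ t : TopologicalSpace G, @IsTopologicalAddGroup G t _ ∧ @T2Space G t ∧ @PseudocompactSp G t ∧
      ¬ @SelectivelyPseudocompactSp G t ∧ @IsReflexive G _ t :=
  ⟨topB H.subtype.flip, isTopologicalAddGroup_topB _, t2_topB _ h.cext_flip, h.pc,
    not_sel h.cext h.cext_flip, isReflexive_TB h.cext h.cext_flip⟩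

end Pool.Agent.H50RF
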