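import Mathlib
import Pool.Agent.Lib.H80Pseudo.CaseC4

/-!
# Reflexive pseudocompact group topologies: definitions

`H50RF` proves in ZFC that every infinite abelian group which admits a pseudocompact Hausdorff group
topology admits one which is reflexive and not selectively pseudocompact (MP_b5ec3e_gt, Q2).
-/

open Set Filter Topology Cardinal

universe u

namespace Pool.Agent.H50RF

open Pool.Agent.H80Pseudo (Circ joinTop PseudocompactSp SelectivelyPseudocompactSp)

/-! ## Reflexivity (used in the final statement) -/

/-- Evaluation at `g` is a continuous character of the dual group `G →ₜ+ Circ` (all continuous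
homomorphisms to the circle group with the compact-open topology). -/
def evalC (G : Type*) [AddCommGroup G] [TopologicalSpace G] (g : G) : (G →ₜ+ Circ) →ₜ+ Circ where
  toFun φ := φ g
  map_zero' := rfl
  map_add' _ _ := rfl
  continuous_toFun :=
    (continuous_eval_const (F := C(G, Circ)) g).comp
      (ContinuousAddMonoidHom.isInducing_toContinuousMap G Circ).continuous

/-- `G` is (Pontryagin) reflexive: the evaluation map from `G` to its bidual is a homeomorphism (it is
always a homomorphism); duals carry the compact-open topology. -/
def IsReflexive (G : Type*) [AddCommGroup G] [TopologicalSpace G] : Prop :=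
  IsHomeomorph (evalC G)

/-! ## Internal notions -/

section

variable {G : Type*} [AddCommGroup G]

/-- The topology on `G` generated by the characters in `H`. -/
@[reducible] def topH (H : AddSubgroup (G →+ Circ)) : TopologicalSpace G :=
  joinTop ⊤ (fun h : H => (h : G →+ Circ))

/-- `H` is a good group of characters of `G` on the subgroup `W`. -/
structure GoodOn (W : AddSubgroup G) (H : AddSubgroup (G →+ Circ)) : Prop where
  /-- characters of countable subgroups of `H` are evaluations -/
  ev : ∀ S : AddSubgroup (G →+ Circ), S ≤ H → (S : Set (G →+ Circ)).Countable →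
    ∀ v : S →+ Circ, ∃ g : G, ∀ s : S, (s : G →+ Circ) g = v s
  /-- characters of countable subgroups of `W` are restrictions of members of `H` -/
  ext : ∀ N : AddSubgroup G, N ≤ W → (N : Set G).Countable →
    ∀ χ : N →+ Circ, ∃ h ∈ H, ∀ x : N, h (x : G) = χ x
  /-- pseudocompact -/
  pc : @PseudocompactSp G (topH H)

/-- Pairing form of the two countable extension properties: every character of every countable
subgroup of `Y` is given by an element of `X`. -/
def CExt {X Y : Type*} [AddCommGroup X] [AddCommGroup Y] (b : X →+ Y →+ Circ) : Prop :=
  ∀ A : AddSubgroup Y, (A : Set Y).Countable → ∀ χ : A →+ Circ, ∃ x : X, ∀ a : A, b x (a : Y) = χ a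

/-- The topology on `X` generated by the characters `b · y`, `y : Y`. -/
@[reducible] def topB {X Y : Type*} [AddCommGroup X] [AddCommGroup Y] (b : X →+ Y →+ Circ) :
    TopologicalSpace X :=
  joinTop ⊤ (fun y : Y => b.flip y)

end

/-- There is a family of functions `K → Bool` indexed by `Y` which takes every countable pattern. -/
def ODense (Y K : Type*) : Prop :=
  ∃ d : Y → K → Bool, ∀ A : Set K, A.Countable → ∀ v : K → Bool, ∃ y, ∀ k ∈ A, d y k = v k

end Pool.Agent.H50RF
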