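import Mathlib
import Pool.Agent.Lib.H80Pseudo.CaseC2

/-!
# Structure lemmas for arbitrary infinite cardinals (MP_b5ec3e_gt, Q2)

`soc G p i = (p ^ i G)[p]`, `socQ G p i = soc G p i / soc G p (i + 1)` (Lib/H80Pseudo/CaseB.lean).
If `soc G p i` is infinite and larger than `soc G p (i + 1)` then `(ZMod (p ^ (i + 1))) ^ (Y)`,
`#Y = #(soc G p i)`, is a direct summand of `G` (`S1_split`).
-/

open Set Cardinal

universe u

namespace Pool.Agent.H50RF

open Pool.Agent.H80Pseudo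

private theorem S1_family_aux {p : ℕ} [Fact p.Prime] {V : Type u} [AddCommGroup V]
    [Module (ZMod p) V] {lam : Cardinal.{u}} (hlam : ℵ₀ ≤ lam) (h : lam ≤ #V) :
    ∃ (J : Type u) (v : J → V), #J = lam ∧
      ∀ d : J →₀ ℤ, (d.sum fun j n => n • v j) = 0 → ∀ j, (p : ℤ) ∣ d j := by
  classical
  let X := Module.Basis.ofVectorSpaceIndex (ZMod p) V
  let B : Module.Basis X (ZMod p) V := Module.Basis.ofVectorSpace (ZMod p) V
  have hX : lam ≤ #X := by
    rw [B.repr.toEquiv.cardinal_eq] at h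
    rcases finite_or_infinite X with hX | hX
    · exfalso
      have : Fintype X := Fintype.ofFinite X
      have : Finite (X →₀ ZMod p) := Finite.of_equiv _ Finsupp.equivFunOnFinite.symm
      have h1 := Cardinal.lt_aleph0_of_finite (X →₀ ZMod p)
      exact absurd (h.trans_lt h1) (not_lt.2 hlam)
    · rw [Cardinal.mk_finsupp_lift_of_infinite] at h
      rw [Cardinal.lift_uzero, le_max_iff] at h
      rcases h with h | h
      · exact h
      · exfalso
        have h1 : Cardinal.lift.{u} #(ZMod p) < Cardinal.aleph0.{u} := by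
          rw [Cardinal.lift_lt_aleph0]
          exact Cardinal.lt_aleph0_of_finite _
        exact absurd (h.trans_lt h1) (not_lt.2 hlam)
  obtain ⟨J, hJ⟩ := Cardinal.le_mk_iff_exists_set.1 hX
  have hli : LinearIndependent (ZMod p) (fun j : J => B j) :=
    B.linearIndependent.comp _ Subtype.val_injective
  refine ⟨J, fun j => B j, hJ, ?_⟩
  intro d hd
  have h2 : ∑ j ∈ d.support, (d j : ZMod p) • B j = 0 := by
    rw [← hd, Finsupp.sum]
    apply Finset.sum_congr rfl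
    intro j _
    rw [Int.cast_smul_eq_zsmul]
  have h3 := linearIndependent_iff'.1 hli d.support (fun j => (d j : ZMod p)) h2
  intro j
  by_cases hj : j ∈ d.support
  · exact (ZMod.intCast_zmod_eq_zero_iff_dvd _ _).1 (h3 j hj)
  · rw [Finsupp.notMem_support_iff.1 hj]
    exact dvd_zero _

/-- A group of exponent `p` with at least `lam` elements has an independent family indexed by a set
of cardinality `lam`. -/
theorem S1_family {p : ℕ} (hp : p.Prime) {V : Type u} [AddCommGroup V]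
    (hV : ∀ v : V, p • v = 0) {lam : Cardinal.{u}} (hlam : ℵ₀ ≤ lam) (h : lam ≤ #V) :
    ∃ (J : Type u) (v : J → V), #J = lam ∧
      ∀ d : J →₀ ℤ, (d.sum fun j n => n • v j) = 0 → ∀ j, (p : ℤ) ∣ d j :=
  @S1_family_aux p ⟨hp⟩ V _ (AddCommGroup.zmodModule hV) lam hlam h

/-- Independent elements of order `p ^ (i + 1)` with independent socles modulo `p ^ (i + 1) G`. -/
theorem S1_indep {G : Type u} [AddCommGroup G] {p : ℕ} (hp : p.Prime) (i : ℕ)
    {lam : Cardinal.{u}} (hlam : ℵ₀ ≤ lam) (h : lam ≤ #(socQ G p i)) :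
    ∃ (J : Type u) (y : J → G), #J = lam ∧ (∀ j, p ^ (i + 1) • y j = 0) ∧
      ∀ (d : J →₀ ℤ), (d.sum fun j n => n • (p ^ i • y j)) ∈ soc G p (i + 1) →
        ∀ j, (p : ℤ) ∣ d j := by
  classical
  obtain ⟨J, v, hJ, hv⟩ := S1_family hp smul_socQ hlam h
  have hrep : ∀ j : J, ∃ y : G, ∃ hy : p ^ i • y ∈ soc G p i,
      (QuotientAddGroup.mk (⟨p ^ i • y, hy⟩ : soc G p i) : socQ G p i) = v j := by
    intro j
    obtain ⟨x, hx⟩ := QuotientAddGroup.mk_surjective (v j)
    obtain ⟨y, hy⟩ := (mem_soc.1 x.2).2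
    have e : (⟨p ^ i • y, hy ▸ x.2⟩ : soc G p i) = x := Subtype.ext hy
    exact ⟨y, hy ▸ x.2, by rw [e, hx]⟩
  choose y hy hyB using hrep
  refine ⟨J, y, hJ, ?_, ?_⟩
  · intro j
    have := (mem_soc.1 (hy j)).1
    rwa [smul_smul, ← pow_succ'] at this
  · intro d hd
    apply hv
    let x : J → soc G p i := fun j => ⟨p ^ i • y j, hy j⟩
    have h1 : (QuotientAddGroup.mk (d.sum fun j n => n • x j) : socQ G p i) = 0 := by
      rw [QuotientAddGroup.eq_zero_iff, AddSubgroup.mem_addSubgroupOf]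
      have : ((d.sum fun j n => n • x j : soc G p i) : G) = d.sum fun j n => n • (p ^ i • y j) := by
        rw [Finsupp.sum, AddSubgroup.val_finsetSum]
        rfl
      rw [this]
      exact hd
    rw [← h1, Finsupp.sum, Finsupp.sum]
    have h3 := map_sum (QuotientAddGroup.mk' ((soc G p (i + 1)).addSubgroupOf (soc G p i)))
      (fun j => d j • x j) d.support
    refine Eq.trans ?_ h3.symm
    apply Finset.sum_congr rfl
    intro j _
    rw [map_zsmul]
    congr 1
    exact (hyB j).symm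

/-- If `(p ^ i G)[p] / (p ^ (i + 1) G)[p]` has at least `lam` elements (`lam` infinite) then
`(ZMod (p ^ (i + 1))) ^ (Y)`, `#Y = lam`, is a direct summand of `G`. -/
theorem S1_block {G : Type u} [AddCommGroup G] {p : ℕ} (hp : p.Prime) (i : ℕ)
    {lam : Cardinal.{u}} (hlam : ℵ₀ ≤ lam) (h : lam ≤ #(socQ G p i)) :
    ∃ (Y : Type u) (Φ : (Y →₀ ZMod (p ^ (i + 1))) →+ G) (π : G →+ (Y →₀ ZMod (p ^ (i + 1)))),
      #Y = lam ∧ ∀ c, π (Φ c) = c := by
  obtain ⟨J, y, hJ, hy, hind⟩ := S1_indep hp i hlam h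
  obtain ⟨Φ, hΦ⟩ := exists_hom_finsupp' (p ^ (i + 1)) y hy
  obtain ⟨π, hπ⟩ := exists_retraction hp (Nat.succ_pos i) Φ
    (fun c g hc => pure_of_indep hp i y hind Φ hΦ c g hc)
  exact ⟨J, Φ, π, hJ, hπ⟩

/-- **Splitting lemma.** If `(p ^ i G)[p]` is infinite and has more elements than
`(p ^ (i + 1) G)[p]`, then `(ZMod (p ^ (i + 1))) ^ (Y)`, `#Y = #(p ^ i G)[p]`, is a direct summand
of `G`. -/
theorem S1_split {G : Type u} [AddCommGroup G] {p : ℕ} (hp : p.Prime) (i : ℕ)
    (hinf : ℵ₀ ≤ #(soc G p i)) (h : #(soc G p (i + 1)) < #(soc G p i)) :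
    ∃ (Y : Type u) (Φ : (Y →₀ ZMod (p ^ (i + 1))) →+ G) (π : G →+ (Y →₀ ZMod (p ^ (i + 1)))),
      #Y = #(soc G p i) ∧ ∀ c, π (Φ c) = c := by
  refine S1_block hp i hinf ?_
  by_contra hcon
  push Not at hcon
  have h1 := mk_soc_le (G := G) p i
  exact absurd h1 (not_le.2 (Cardinal.mul_lt_of_lt hinf hcon h))

/-- The socle of `(p ^ i * k) G` for `k` prime to `p`. -/
theorem S1_mem_soc_mul {G : Type*} [AddCommGroup G] {p i k : ℕ} (hk : Nat.Coprime p k) {x : G} :
    (p • x = 0 ∧ ∃ y, (p ^ i * k) • y = x) ↔ x ∈ soc G p i := by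
  constructor
  · rintro ⟨h1, y, rfl⟩
    refine mem_soc.2 ⟨h1, k • y, ?_⟩
    rw [smul_smul]
  · intro hx
    obtain ⟨h1, y, hy⟩ := mem_soc.1 hx
    refine ⟨h1, ?_⟩
    obtain ⟨a, b, hab⟩ : ∃ a b : ℤ, (p : ℤ) * a + (k : ℤ) * b = 1 :=
      ⟨_, _, (Nat.gcd_eq_gcd_ab p k).symm.trans (by exact_mod_cast hk)⟩
    refine ⟨b • y, ?_⟩
    have h2 : (p ^ i * k : ℕ) • b • y = ((k : ℤ) * b) • x := by
      rw [← hy, ← natCast_zsmul, ← natCast_zsmul, smul_smul, smul_smul]
      congr 1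
      push_cast
      ring
    rw [h2]
    have h3 : ((p : ℤ) * a) • x = 0 := by
      rw [mul_comm, mul_smul, natCast_zsmul, h1, smul_zero]
    have h4 : ((p : ℤ) * a + (k : ℤ) * b) • x = x := by rw [hab, one_smul]
    rw [add_smul, h3, zero_add] at h4
    exact h4

end Pool.Agent.H50RF
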